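import Mathlib
import Pool.Agent.Q81.Circ6

/-!
# Weighted products of distances on the unit circle are somewhere at least two
-/

namespace Pool.Agent.Results.MP_280d4a_an.WeightedProductAtLeastTwo

/-- For all `r ≥ 1`, all points `z_1, …, z_r` of the unit circle and all weights `p_1, …, p_r ≥ 0`
with `p_1 + ⋯ + p_r = r`, there is a point `w` of the unit circle with
`∏_j |w - z_j| ^ p_j ≥ 2` (with `0 ^ 0 = 1`). -/
theorem result (r : ℕ) (hr : 1 ≤ r) (z : Fin r → ℂ) (hz : ∀ j, ‖z j‖ = 1)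
    (p : Fin r → ℝ) (hp : ∀ j, 0 ≤ p j) (hsum : ∑ j, p j = r) :
    ∃ w : ℂ, ‖w‖ = 1 ∧ 2 ≤ ∏ j, ‖w - z j‖ ^ p j :=
  Q81.Circ.exists_two_le r hr z hz p hp hsum

end Pool.Agent.Results.MP_280d4a_an.WeightedProductAtLeastTwo
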